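import Pool.Agent.Helper94.LG.Sheet3

/-! Rows EX_PSI and EX_LIFT (helper46). -/

set_option autoImplicit false

namespace H11ST
namespace LG
namespace S46

open Set

variable {d n : ℕ}

theorem n1_nonneg (y : E n) : 0 ≤ n1 y := Finset.sum_nonneg fun _ _ => abs_nonneg _

theorem n1_sub (a b : E n) : n1 (a - b) ≤ n1 a + n1 b := by
  unfold n1
  rw [← Finset.sum_add_distrib]
  exact Finset.sum_le_sum fun k _ => abs_sub _ _

theorem n1_tm (i : Fin n) : n1 (tm n i) = 1 := by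
  unfold n1 tm
  rw [Finset.sum_eq_single i]
  · simp
  · intro j _ hj
    simp [hj]
  · intro h
    exact absurd (Finset.mem_univ i) h

theorem psi_sub (p : Fin n → E d) (a b : E n) : psi p (a - b) = psi p a - psi p b := by
  unfold psi
  rw [← Finset.sum_sub_distrib]
  exact Finset.sum_congr rfl fun i _ => sub_smul _ _ _

theorem psi_tm (p : Fin n → E d) (i : Fin n) : psi p (tm n i) = p i := by
  unfold psi tm
  rw [Finset.sum_eq_single i]
  · simp
  · intro j _ hj
    simp [hj]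
  · intro h
    exact absurd (Finset.mem_univ i) h

theorem psi_sq (ε : ℝ) (p : Fin n → E d) (hε : 0 ≤ ε) (hp : NearOrth ε p) (c : E n) :
    |‖psi p c‖ ^ 2 - ‖c‖ ^ 2| ≤ ε * n1 c ^ 2 := by
  have h1 : ‖psi p c‖ ^ 2 = ∑ i, ∑ j, c i * c j * inner ℝ (p i) (p j) := by
    rw [← real_inner_self_eq_norm_sq]
    unfold psi
    rw [sum_inner]
    refine Finset.sum_congr rfl fun i _ => ?_
    rw [inner_sum]
    refine Finset.sum_congr rfl fun j _ => ?_
    rw [real_inner_smul_left, real_inner_smul_right]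
    ring
  have h2 : ‖c‖ ^ 2 = ∑ i, ∑ j, c i * c j * (if i = j then 1 else 0) := by
    rw [EuclideanSpace.norm_sq_eq]
    refine Finset.sum_congr rfl fun i _ => ?_
    simp only [mul_ite, mul_one, mul_zero, Finset.sum_ite_eq, Finset.mem_univ, if_true]
    rw [Real.norm_eq_abs, sq_abs]
    ring
  have h3 : ε * n1 c ^ 2 = ∑ i, ∑ j, ε * (|c i| * |c j|) := by
    unfold n1
    rw [sq, Finset.sum_mul_sum, Finset.mul_sum]
    exact Finset.sum_congr rfl fun i _ => Finset.mul_sum _ _ _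
  rw [h1, h2, h3, ← Finset.sum_sub_distrib]
  refine (Finset.abs_sum_le_sum_abs _ _).trans (Finset.sum_le_sum fun i _ => ?_)
  rw [← Finset.sum_sub_distrib]
  refine (Finset.abs_sum_le_sum_abs _ _).trans (Finset.sum_le_sum fun j _ => ?_)
  rw [← mul_sub, abs_mul, abs_mul, mul_comm ε]
  refine mul_le_mul_of_nonneg_left ?_ (mul_nonneg (abs_nonneg _) (abs_nonneg _))
  by_cases h : i = j
  · subst h
    rw [if_pos rfl, real_inner_self_eq_norm_sq, hp.1 i]
    norm_num
    exact hε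
  · rw [if_neg h, sub_zero]
    exact hp.2 i j h

theorem psi_abs (ε : ℝ) (p : Fin n → E d) (hε : 0 ≤ ε) (hp : NearOrth ε p) (c : E n) :
    |‖psi p c‖ - ‖c‖| ≤ √ε * n1 c := by
  have h1 := psi_sq ε p hε hp c
  have h2 : |‖psi p c‖ - ‖c‖| ^ 2 ≤ ε * n1 c ^ 2 := by
    refine le_trans ?_ h1
    rw [sq_abs]
    have e1 : ‖psi p c‖ ^ 2 - ‖c‖ ^ 2 = (‖psi p c‖ - ‖c‖) * (‖psi p c‖ + ‖c‖) := by ring
    rw [e1, abs_mul, abs_of_nonneg (add_nonneg (norm_nonneg _) (norm_nonneg c))]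
    rw [sq, ← abs_mul_abs_self]
    refine mul_le_mul_of_nonneg_left ?_ (abs_nonneg _)
    refine (abs_sub _ _).trans ?_
    rw [abs_of_nonneg (norm_nonneg _), abs_of_nonneg (norm_nonneg _)]
  refine abs_le_of_sq_le_sq' ?_ (mul_nonneg (Real.sqrt_nonneg _) (n1_nonneg _)) |>.2
  rw [mul_pow, Real.sq_sqrt hε]
  exact h2

end S46

open S46 in
/-- row EX_PSI -/
theorem ex_psi : EX_PSI := by
  intro d n ε p hε hp a b
  rw [← psi_sub]
  exact psi_abs ε p hε hp (a - b)

namespace S46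

variable {d n : ℕ} {V W : Type}

open Set

theorem mapv_ok (g : V → W) : ∀ t : BT (Fin n) V, t.ok → (t.mapv g).ok ∧ (t.mapv g).lv = t.lv
  | .leaf i => fun _ => ⟨trivial, rfl⟩
  | .node z l r => by
    intro h
    obtain ⟨h1, h2⟩ := mapv_ok g l h.1
    obtain ⟨h3, h4⟩ := mapv_ok g r h.2.1
    refine ⟨⟨h1, h3, ?_⟩, ?_⟩
    · rw [h2, h4]
      exact h.2.2
    · show (l.mapv g).lv ∪ (r.mapv g).lv = l.lv ∪ r.lv
      rw [h2, h4]

theorem mapv_nodes (g : V → W) : ∀ t : BT (Fin n) V, (t.mapv g).nodes = t.nodes.map g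
  | .leaf i => rfl
  | .node z l r => by
    show g z :: ((l.mapv g).nodes ++ (r.mapv g).nodes) = (z :: (l.nodes ++ r.nodes)).map g
    rw [mapv_nodes g l, mapv_nodes g r, List.map_cons, List.map_append]

theorem mapv_mapv (g : V → W) (h : W → V) : ∀ t : BT (Fin n) V, (∀ z ∈ t.nodes, h (g z) = z) →
    (t.mapv g).mapv h = t
  | .leaf i => fun _ => rfl
  | .node z l r => by
    intro hz
    have h1 := mapv_mapv g h l fun w hw => hz w (List.mem_cons_of_mem _ (List.mem_append_left _ hw))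
    have h2 := mapv_mapv g h r fun w hw => hz w (List.mem_cons_of_mem _ (List.mem_append_right _ hw))
    show BT.node (h (g z)) ((l.mapv g).mapv h) ((r.mapv g).mapv h) = BT.node z l r
    rw [h1, h2, hz z List.mem_cons_self]

theorem pos_psi (p : Fin n → E d) (s : BT (Fin n) (E n)) :
    (s.mapv (psi p)).pos p = psi p (s.pos (tm n)) := by
  cases s with
  | leaf i => exact (psi_tm p i).symm
  | node z l r => rfl

theorem pos_n1 (K : ℝ) (hK : 1 ≤ K) (s : BT (Fin n) (E n)) (hs : ∀ z ∈ s.nodes, n1 z ≤ K) :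
    n1 (s.pos (tm n)) ≤ K := by
  cases s with
  | leaf i => exact (n1_tm i).le.trans hK
  | node z l r => exact hs z List.mem_cons_self

theorem edge (ε K : ℝ) (p : Fin n → E d) (hε : 0 ≤ ε) (hp : NearOrth ε p) (a b : E n)
    (ha : n1 a ≤ K) (hb : n1 b ≤ K) :
    |dist (psi p a) (psi p b) - dist a b| ≤ √ε * (2 * K) := by
  rw [dist_eq_norm, dist_eq_norm, ← psi_sub]
  refine (psi_abs ε p hε hp (a - b)).trans (mul_le_mul_of_nonneg_left ?_ (Real.sqrt_nonneg _))
  linarith [n1_sub a b]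

theorem esum_psi (ε K : ℝ) (p : Fin n → E d) (hε : 0 ≤ ε) (hp : NearOrth ε p) (hK : 1 ≤ K) :
    ∀ s : BT (Fin n) (E n), (∀ z ∈ s.nodes, n1 z ≤ K) →
    |(s.mapv (psi p)).esum p dist - s.esum (tm n) dist| ≤
      √ε * (2 * K) * s.esum (tm n) (fun _ _ => 1)
  | .leaf i => by
    intro _
    show |(0 : ℝ) - 0| ≤ √ε * (2 * K) * 0
    simp
  | .node z l r => by
    intro hs
    have hl : ∀ w ∈ l.nodes, n1 w ≤ K := fun w hw =>
      hs w (List.mem_cons_of_mem _ (List.mem_append_left _ hw))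
    have hr : ∀ w ∈ r.nodes, n1 w ≤ K := fun w hw =>
      hs w (List.mem_cons_of_mem _ (List.mem_append_right _ hw))
    have h1 := esum_psi ε K p hε hp hK l hl
    have h2 := esum_psi ε K p hε hp hK r hr
    have h3 := edge ε K p hε hp z (l.pos (tm n)) (hs z List.mem_cons_self) (pos_n1 K hK l hl)
    have h4 := edge ε K p hε hp z (r.pos (tm n)) (hs z List.mem_cons_self) (pos_n1 K hK r hr)
    show |(dist (psi p z) ((l.mapv (psi p)).pos p) + (l.mapv (psi p)).esum p dist +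
        (dist (psi p z) ((r.mapv (psi p)).pos p) + (r.mapv (psi p)).esum p dist)) -
        (dist z (l.pos (tm n)) + l.esum (tm n) dist +
          (dist z (r.pos (tm n)) + r.esum (tm n) dist))| ≤
      √ε * (2 * K) * (1 + l.esum (tm n) (fun _ _ => 1) + (1 + r.esum (tm n) (fun _ _ => 1)))
    rw [pos_psi, pos_psi]
    rw [abs_le] at h1 h2 h3 h4 ⊢
    constructor
    · linarith [h1.1, h2.1, h3.1, h4.1]
    · linarith [h1.2, h2.2, h3.2, h4.2]

theorem cnt : ∀ s : BT (Fin n) V, s.ok → ∀ q : Fin n → V,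
    s.esum q (fun _ _ => (1 : ℝ)) = 2 * ((s.lv.card : ℝ) - 1)
  | .leaf i => by
    intro _ q
    show (0 : ℝ) = 2 * ((({i} : Finset (Fin n)).card : ℝ) - 1)
    rw [Finset.card_singleton]
    norm_num
  | .node z l r => by
    intro h q
    have h1 := cnt l h.1 q
    have h2 := cnt r h.2.1 q
    show (1 : ℝ) + l.esum q (fun _ _ => 1) + (1 + r.esum q (fun _ _ => 1)) =
      2 * (((l.lv ∪ r.lv).card : ℝ) - 1)
    rw [Finset.card_union_of_disjoint h.2.2, h1, h2]
    push_cast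
    ring

theorem tot_psi (ε K : ℝ) (p : Fin n → E d) (hε : 0 ≤ ε) (hp : NearOrth ε p) (hK : 1 ≤ K)
    (i0 : Fin n) (s : BT (Fin n) (E n)) (hv : Val i0 s) (hs : ∀ z ∈ s.nodes, n1 z ≤ K) :
    |gtot p i0 dist (s.mapv (psi p)) - tot i0 dist s| ≤ √ε * (4 * K) * n := by
  have h1 := esum_psi ε K p hε hp hK s hs
  have h2 := edge ε K p hε hp (tm n i0) (s.pos (tm n)) ((n1_tm i0).le.trans hK)
    (pos_n1 K hK s hs)
  have h3 := cnt s hv.1 (tm n)
  have hc : (s.lv.card : ℝ) ≤ n := by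
    have := Finset.card_le_univ s.lv
    rw [Fintype.card_fin] at this
    exact_mod_cast this
  rw [psi_tm] at h2
  unfold gtot tot
  rw [pos_psi]
  have h0 : 0 ≤ √ε * (2 * K) := mul_nonneg (Real.sqrt_nonneg _) (by linarith)
  have h4 : √ε * (2 * K) + √ε * (2 * K) * s.esum (tm n) (fun _ _ => 1) ≤ √ε * (4 * K) * n := by
    rw [h3]
    have h5 : √ε * (2 * K) * (2 * (s.lv.card : ℝ)) ≤ √ε * (2 * K) * (2 * n) :=
      mul_le_mul_of_nonneg_left (by linarith) h0
    linarith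
  rw [abs_le] at h1 h2 ⊢
  constructor
  · linarith [h1.1, h2.1]
  · linarith [h1.2, h2.2]

theorem n1_Dl {y : E n} (h : y ∈ Dl n) : n1 y = 1 := by
  unfold n1
  rw [← h.2]
  exact Finset.sum_congr rfl fun k _ => abs_of_nonneg (h.1 k)

theorem exists_lam (p : Fin n → E d) (v : E d) (hv : v ∈ convexHull ℝ (range p)) :
    ∃ y : E n, y ∈ Dl n ∧ psi p y = v := by
  have hconv : Convex ℝ {v : E d | ∃ y : E n, y ∈ Dl n ∧ psi p y = v} := by
    rintro v ⟨y, hy, rfl⟩ w ⟨z, hz, rfl⟩ a b ha hb hab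
    refine ⟨a • y + b • z, ⟨fun k => ?_, ?_⟩, ?_⟩
    · show 0 ≤ a * y k + b * z k
      exact add_nonneg (mul_nonneg ha (hy.1 k)) (mul_nonneg hb (hz.1 k))
    · show ∑ k, (a * y k + b * z k) = 1
      rw [Finset.sum_add_distrib, ← Finset.mul_sum, ← Finset.mul_sum, hy.2, hz.2]
      linarith
    · unfold psi
      rw [Finset.smul_sum, Finset.smul_sum, ← Finset.sum_add_distrib]
      refine Finset.sum_congr rfl fun k _ => ?_
      show (a * y k + b * z k) • p k = _
      rw [add_smul, mul_smul, mul_smul]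
  have hsub : range p ⊆ {v : E d | ∃ y : E n, y ∈ Dl n ∧ psi p y = v} := by
    rintro _ ⟨i, rfl⟩
    refine ⟨tm n i, ⟨fun k => ?_, ?_⟩, psi_tm p i⟩
    · unfold tm
      rw [EuclideanSpace.single_apply]
      split_ifs
      · exact zero_le_one
      · exact le_rfl
    · have h1 := n1_tm i
      unfold n1 at h1
      rw [← h1]
      refine Finset.sum_congr rfl fun k _ => (abs_of_nonneg ?_).symm
      unfold tm
      rw [EuclideanSpace.single_apply]
      split_ifs
      · exact zero_le_one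
      · exact le_rfl
  exact convexHull_min hsub hconv hv

theorem nsum_mapv (g : V → W) (u : W → ℝ) (w : V → ℝ) : ∀ t : BT (Fin n) V,
    (∀ z ∈ t.nodes, u (g z) ≤ w z) → (t.mapv g).nsum u ≤ t.nsum w
  | .leaf i => fun _ => le_rfl
  | .node z l r => by
    intro hz
    have h1 := nsum_mapv g u w l fun w hw =>
      hz w (List.mem_cons_of_mem _ (List.mem_append_left _ hw))
    have h2 := nsum_mapv g u w r fun w hw =>
      hz w (List.mem_cons_of_mem _ (List.mem_append_right _ hw))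
    have h3 := hz z List.mem_cons_self
    show u (g z) + (l.mapv g).nsum u + (r.mapv g).nsum u ≤ w z + l.nsum w + r.nsum w
    linarith

end S46

open S46 in
/-- row EX_LIFT -/
theorem ex_lift : EX_LIFT := by
  intro _ d n ε p i0 hε hε1 hp t ht
  classical
  have hl : ∀ v : E d, ∃ y : E n, v ∈ convexHull ℝ (Set.range p) → y ∈ Dl n ∧ psi p y = v := by
    intro v
    by_cases hv : v ∈ convexHull ℝ (Set.range p)
    · obtain ⟨y, hy⟩ := exists_lam p v hv
      exact ⟨y, fun _ => hy⟩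
    · exact ⟨0, fun h => absurd h hv⟩
  choose lam hlam using hl
  have hback : (t.mapv lam).mapv (psi p) = t :=
    mapv_mapv lam (psi p) t fun z hz => (hlam z (ht.mem z hz)).2
  have hDl : ∀ z ∈ (t.mapv lam).nodes, z ∈ Dl n := by
    intro z hz
    rw [mapv_nodes] at hz
    obtain ⟨w, hw, rfl⟩ := List.mem_map.1 hz
    exact (hlam w (ht.mem w hw)).1
  obtain ⟨ho, hlv⟩ := mapv_ok lam t ht.val.1
  have hv : Val i0 (t.mapv lam) := ⟨ho, hlv.trans ht.val.2⟩
  refine ⟨t.mapv lam, hv, hDl, ?_, ?_, ?_⟩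
  · have h1 := tot_psi ε 1 p hε hp le_rfl i0 (t.mapv lam) hv
      fun z hz => (n1_Dl (hDl z hz)).le
    rw [hback, abs_le] at h1
    linarith [h1.1]
  · refine nsum_mapv lam _ _ t fun z hz => ?_
    obtain ⟨h1, h2⟩ := hlam z (ht.mem z hz)
    by_cases h3 : ‖lam z‖ ^ 2 < 1 / 4 - 1 / 1000
    · have h4 : ‖z‖ < 1 / 2 := by
        have h5 := psi_sq ε p hε hp (lam z)
        rw [h2, n1_Dl h1, abs_le] at h5
        have h6 : ‖z‖ ^ 2 < (1 / 2) ^ 2 := by linarith [h5.2]
        exact lt_of_pow_lt_pow_left₀ 2 (by norm_num) h6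
      rw [if_pos h3, if_pos h4]
    · rw [if_neg h3]
      split_ifs
      · exact zero_le_one
      · exact le_rfl
  · intro s' hs' hn
    obtain ⟨ho', hlv'⟩ := mapv_ok (psi p) s' hs'.1
    have h1 := ht.le (s'.mapv (psi p)) ⟨ho', hlv'.trans hs'.2⟩
    have h2 := tot_psi ε 5 p hε hp (by norm_num) i0 s' hs' hn
    rw [abs_le] at h2
    linarith [h2.2]

end LG
end H11ST
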